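import Mathlib

set_option autoImplicit false

namespace Pool.Agent.Results.MP_a75ade_an.Periodic

open MvPolynomial Filter Topology

/-- The exponent of z_1^j z_2^k. -/
noncomputable def ex (p : ℕ × ℕ) : Fin 2 →₀ ℕ := Finsupp.single 0 p.1 + Finsupp.single 1 p.2

/-- Interpolation sets for type (n, ν). -/
def IsInterp (n ν : ℕ) (S : Finset (ℕ × ℕ)) : Prop :=
  S.card = (n + 1) * (n + 2) / 2 + (ν + 1) * (ν + 2) / 2 - 1 ∧
    (∀ j k, j + k ≤ n → (j, k) ∈ S) ∧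
    ∀ j k l m, (j, k) ∈ S → l ≤ j → m ≤ k → (l, m) ∈ S

/-- P / Q is a rational approximant of type (n, ν) to f corresponding to S. -/
def IsApprox (f : MvPowerSeries (Fin 2) ℂ) (n ν : ℕ) (S : Finset (ℕ × ℕ))
    (P Q : MvPolynomial (Fin 2) ℂ) : Prop :=
  Q ≠ 0 ∧ P.totalDegree ≤ n ∧ Q.totalDegree ≤ ν ∧
    ∀ p ∈ S, MvPowerSeries.coeff (ex p)
      ((Q : MvPowerSeries (Fin 2) ℂ) * f - (P : MvPowerSeries (Fin 2) ℂ)) = 0

/-- The denominator G = 1 - z_1^ν. -/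
noncomputable def G (ν : ℕ) : MvPolynomial (Fin 2) ℂ := 1 - X 0 ^ ν

@[simp] lemma ex0 (p : ℕ × ℕ) : ex p 0 = p.1 := by simp [ex]
@[simp] lemma ex1 (p : ℕ × ℕ) : ex p 1 = p.2 := by simp [ex]

lemma ex_eq (p q : ℕ × ℕ) : ex p = ex q ↔ p = q := by
  refine ⟨fun h => Prod.ext ?_ ?_, fun h => h ▸ rfl⟩
  · simpa using congrArg (· 0) h
  · simpa using congrArg (· 1) h

lemma ex_deg (p : ℕ × ℕ) : (ex p).sum (fun _ e => e) = p.1 + p.2 := by
  rw [Finsupp.sum_fintype _ _ (by simp)]; simp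

noncomputable def f0 (ν : ℕ) : MvPowerSeries (Fin 2) ℂ :=
  fun m => if m 1 = 0 ∧ ν ∣ m 0 then 1 else 0

lemma mono_f0 (ν : ℕ) (a : ℕ × ℕ) (m : Fin 2 →₀ ℕ) :
    MvPowerSeries.coeff m (((monomial (ex a) 1 : MvPolynomial (Fin 2) ℂ) :
      MvPowerSeries (Fin 2) ℂ) * f0 ν) =
      if m 1 = a.2 ∧ a.1 ≤ m 0 ∧ ν ∣ m 0 - a.1 then 1 else 0 := by
  rw [MvPolynomial.coe_monomial, MvPowerSeries.coeff_monomial_mul, one_mul,
    MvPowerSeries.coeff_apply, f0, ← ite_and]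
  congr 1
  simp only [Finsupp.le_def, Fin.forall_fin_two, ex0, ex1, Finsupp.coe_tsub, Pi.sub_apply,
    eq_iff_iff]
  constructor
  · rintro ⟨⟨h1, h2⟩, h3, h4⟩; exact ⟨by omega, h1, h4⟩
  · rintro ⟨h1, h2, h3⟩; exact ⟨⟨h2, by omega⟩, by omega, h3⟩

lemma G_f0 (ν : ℕ) (hν : 0 < ν) : (G ν : MvPowerSeries (Fin 2) ℂ) * f0 ν = 1 := by
  have e : G ν = monomial (ex (0, 0)) 1 - monomial (ex (ν, 0)) 1 := by
    simp [G, ex, X_pow_eq_monomial]
  ext m
  rw [e, ← MvPolynomial.coeToMvPowerSeries.ringHom_apply, map_sub, sub_mul, map_sub,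
    MvPolynomial.coeToMvPowerSeries.ringHom_apply, MvPolynomial.coeToMvPowerSeries.ringHom_apply,
    mono_f0, mono_f0, MvPowerSeries.coeff_one]
  have z : m = 0 ↔ m 0 = 0 ∧ m 1 = 0 := by simp [Finsupp.ext_iff]
  simp only [z, zero_le, true_and, tsub_zero]
  by_cases h1 : m 1 = 0
  · by_cases h0 : m 0 = 0
    · simp [h0, h1, hν.ne']
    · by_cases hd : ν ∣ m 0
      · have := Nat.le_of_dvd (Nat.pos_of_ne_zero h0) hd
        simp [h0, h1, hd, this, Nat.dvd_sub hd dvd_rfl]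
      · have : ¬ (ν ≤ m 0 ∧ ν ∣ m 0 - ν) := fun ⟨a, b⟩ =>
          hd (by simpa [Nat.sub_add_cancel a] using Nat.dvd_add b dvd_rfl)
        rw [if_neg (by simp [hd]), if_neg (fun h => this h.2), if_neg (by simp [h0])]; simp
  · simp [h1]

def tri (n : ℕ) : Finset (ℕ × ℕ) := (Finset.range (n + 1)).biUnion Finset.HasAntidiagonal.antidiagonal

lemma mem_tri (n : ℕ) (p : ℕ × ℕ) : p ∈ tri n ↔ p.1 + p.2 ≤ n := by
  simp [tri, Nat.lt_succ_iff]

lemma card_tri (n : ℕ) : (tri n).card = (n + 1) * (n + 2) / 2 := by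
  rw [tri, Finset.card_biUnion]
  · simp only [Finset.Nat.card_antidiagonal]
    have : ∀ n, (∑ u ∈ Finset.range (n + 1), (u + 1)) * 2 = (n + 1) * (n + 2) := by
      intro n
      induction n with
      | zero => simp
      | succ n ih => rw [Finset.sum_range_succ, add_mul, ih]; ring
    rw [← this]; simp
  · intro a _ b _ h
    simp only [Function.onFun, Finset.disjoint_left, Finset.HasAntidiagonal.mem_antidiagonal]
    omega

lemma gap (n ν : ℕ) (hν : 2 ≤ ν) (hn : ν ≤ n) (hd : ¬ ν ∣ n + 1) (S : Finset (ℕ × ℕ))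
    (hS : IsInterp n ν S) : ∃ a : ℕ × ℕ, a.1 + a.2 ≤ ν ∧
      ∀ j, (j, a.2) ∈ S → n < j + a.2 → ¬ ν ∣ j - a.1 := by
  by_contra hc
  push Not at hc
  choose! J h1 h2 h3 using hc
  let φ : ℕ × ℕ → ℕ × ℕ := fun a => if a = (ν, 0) then (n + 1 - ν, ν) else (J a, a.2)
  have m : ∀ a ∈ tri ν, φ a ∈ S \ tri n := by
    intro a ha
    rw [mem_tri] at ha
    simp only [φ, Finset.mem_sdiff, mem_tri]
    split_ifs with h
    · have := h2 (0, ν) (by simp)
      exact ⟨hS.2.2 _ _ _ _ (h1 (0, ν) (by simp)) (by simp at this; omega) le_rfl, by simp; omega⟩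
    · exact ⟨h1 a ha, by have := h2 a ha; simp; omega⟩
  have key : ∀ a : ℕ × ℕ, a.1 + a.2 ≤ ν → (J a, a.2) ≠ (n + 1 - ν, ν) := by
    intro a ha e
    obtain ⟨e1, e2⟩ := Prod.mk.inj e
    have := h3 a ha
    rw [e1, (by omega : a.1 = 0), tsub_zero] at this
    exact hd (by simpa [Nat.sub_add_cancel (by omega : ν ≤ n + 1)] using Nat.dvd_add this dvd_rfl)
  have inj : Set.InjOn φ (tri ν) := by
    intro a ha b hb e
    rw [Finset.mem_coe, mem_tri] at ha hb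
    simp only [φ] at e
    split_ifs at e with p q q
    · rw [p, q]
    · exact absurd e.symm (key b hb)
    · exact absurd e (key a ha)
    · obtain ⟨e1, e2⟩ := Prod.mk.inj e
      have la : a.1 < ν := by
        by_contra h; exact p (Prod.ext (by simp; omega) (by simp; omega))
      have lb : b.1 < ν := by
        by_contra h; exact q (Prod.ext (by simp; omega) (by simp; omega))
      have a2 := h2 a ha
      have b2 := h2 b hb
      have a3 := (Nat.modEq_iff_dvd' (by omega : a.1 ≤ J a)).2 (h3 a ha)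
      have b3 := (Nat.modEq_iff_dvd' (by omega : b.1 ≤ J b)).2 (h3 b hb)
      rw [e1] at a3
      exact Prod.ext ((a3.trans b3.symm).eq_of_lt_of_lt la lb) e2
  have c := Finset.card_le_card_of_injOn φ m inj
  have sub : tri n ⊆ S := fun p hp => hS.2.1 _ _ ((mem_tri _ _).1 hp)
  rw [Finset.card_sdiff_of_subset sub, card_tri, card_tri, hS.1] at c
  have : 0 < (ν + 1) * (ν + 2) / 2 := Nat.div_pos (by nlinarith) two_pos
  omega

lemma step (n ν : ℕ) (hν : 2 ≤ ν) (hn : ν ≤ n) (hd : ¬ ν ∣ n + 1) (S : Finset (ℕ × ℕ))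
    (hS : IsInterp n ν S) : ∃ P Q, IsApprox (f0 ν) n ν S P Q ∧ eval ![2, 1] Q ≠ 0 ∧
      1 ≤ (eval ![2, 1] P / eval ![2, 1] Q).re := by
  obtain ⟨a, ha, h⟩ := gap n ν hν hn hd S hS
  let T := (Finset.range (n + 1)).filter fun j => j + a.2 ≤ n ∧ a.1 ≤ j ∧ ν ∣ j - a.1
  have ev : ∀ p : ℕ × ℕ, eval ![2, 1] (monomial (ex p) (1 : ℂ)) = ((2 ^ p.1 : ℝ) : ℂ) := by
    intro p
    rw [eval_monomial, Finsupp.prod_fintype _ _ (by simp)]
    simp
  refine ⟨∑ j ∈ T, monomial (ex (j, a.2)) 1, monomial (ex a) 1, ⟨by simp, ?_, ?_, ?_⟩, ?_, ?_⟩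
  · apply totalDegree_finsetSum_le
    intro j hj
    rw [totalDegree_monomial _ one_ne_zero, ex_deg]
    exact (Finset.mem_filter.1 hj).2.1
  · rwa [totalDegree_monomial _ one_ne_zero, ex_deg]
  · rintro ⟨j, k⟩ hp
    rw [map_sub, mono_f0, MvPolynomial.coeff_coe, coeff_sum, sub_eq_zero]
    simp only [coeff_monomial, ex_eq, ex0, ex1, Prod.mk.injEq]
    by_cases hk : k = a.2
    · subst hk
      simp only [and_true, true_and, Finset.sum_ite_eq', T, Finset.mem_filter, Finset.mem_range]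
      congr 1
      rw [eq_iff_iff]
      refine ⟨fun x => ?_, fun x => x.2.2⟩
      have : j + a.2 ≤ n := by
        by_contra hc
        exact h j hp (by omega) x.2
      exact ⟨by omega, this, x⟩
    · simp [hk, Ne.symm hk]
  · rw [ev]; simp
  · simp only [map_sum, ev]
    rw [← Complex.ofReal_sum, ← Complex.ofReal_div, Complex.ofReal_re, le_div_iff₀ (by positivity),
      one_mul]
    exact Finset.single_le_sum (f := fun j => (2 : ℝ) ^ j) (fun _ _ => by positivity)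
      (by simp [T]; omega)

theorem result (ν : ℕ) (hν : 2 ≤ ν) :
    (G ν).totalDegree = ν ∧ eval 0 (G ν) ≠ 0 ∧
    (∃ f : MvPowerSeries (Fin 2) ℂ, (G ν : MvPowerSeries (Fin 2) ℂ) * f = 1) ∧
    ∀ f : MvPowerSeries (Fin 2) ℂ, (G ν : MvPowerSeries (Fin 2) ℂ) * f = 1 →
      ∀ S : ℕ → Finset (ℕ × ℕ), (∀ n, IsInterp n ν (S n)) →
        ∃ P Q : ℕ → MvPolynomial (Fin 2) ℂ, (∀ n, IsApprox f n ν (S n) (P n) (Q n)) ∧
          ∃ z : Fin 2 → ℂ, eval z (G ν) ≠ 0 ∧ (∀ n, eval z (Q n) ≠ 0) ∧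
            ¬ Tendsto (fun n => eval z (P n) / eval z (Q n)) atTop (𝓝 (1 / eval z (G ν))) := by
  have g0 := G_f0 ν (by omega)
  have dG : (G ν).totalDegree = ν := by
    rw [G, sub_eq_add_neg, totalDegree_add_eq_right_of_totalDegree_lt] <;>
      simp [totalDegree_X_pow]
    omega
  have eG : eval ![2, 1] (G ν) = ((1 - 2 ^ ν : ℝ) : ℂ) := by simp [G]
  have neg : (1 - 2 ^ ν : ℝ) < 0 := by
    have : (1 : ℝ) < 2 ^ ν := one_lt_pow₀ one_lt_two (by omega)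
    linarith
  have nG : eval ![2, 1] (G ν) ≠ 0 := by rw [eG]; exact_mod_cast neg.ne
  refine ⟨dG, by simp [G, zero_pow (by omega : ν ≠ 0)], ⟨_, g0⟩, fun f hf S hS => ?_⟩
  have : f = f0 ν := by rw [← mul_one f, ← g0, ← mul_assoc, mul_comm f, hf, one_mul]
  subst this
  have all : ∀ n, ∃ P Q, IsApprox (f0 ν) n ν (S n) P Q ∧ eval ![2, 1] Q ≠ 0 ∧
      (ν ≤ n → ¬ ν ∣ n + 1 → 1 ≤ (eval ![2, 1] P / eval ![2, 1] Q).re) := by
    intro n
    by_cases h : ν ≤ n ∧ ¬ ν ∣ n + 1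
    · obtain ⟨P, Q, h1, h2, h3⟩ := step n ν hν h.1 h.2 _ (hS n)
      exact ⟨P, Q, h1, h2, fun _ _ => h3⟩
    · refine ⟨1, G ν, ⟨fun e => nG (by simp [e]), by simp, dG.le, fun p _ => by simp [g0]⟩, nG,
        fun a b => absurd ⟨a, b⟩ h⟩
  choose P Q h1 h2 h3 using all
  refine ⟨P, Q, h1, ![2, 1], nG, h2, fun t => ?_⟩
  have t2 := (Complex.continuous_re.tendsto _).comp t
  have lt : (1 / eval ![2, 1] (G ν)).re < 1 := by
    rw [eG, ← Complex.ofReal_one, ← Complex.ofReal_div, Complex.ofReal_re]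
    exact (div_neg_of_pos_of_neg one_pos neg).trans one_pos
  obtain ⟨N, hN⟩ := eventually_atTop.1 (t2.eventually (gt_mem_nhds lt))
  have l1 : N ≤ ν * (N + 1) := by nlinarith
  refine (h3 (ν * (N + 1)) (by nlinarith) fun hd => ?_).not_gt (hN _ l1)
  have := (Nat.dvd_add_right (Dvd.intro _ rfl)).1 hd
  have := Nat.le_of_dvd one_pos this
  omega

end Pool.Agent.Results.MP_a75ade_an.Periodic
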